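import Pool.Agent.H56.MD.Sum

/-!
# The integers with restricted digits
-/

set_option autoImplicit false

namespace Pool.Agent.H56.MD

open Finset Polynomial

/-- the integers `x < b ^ k` whose digits in base `b` are allowed: the digit at `b ^ j` is in `A j` for all `j < k` -/
def digs (b k : ℕ) (A : ℕ → Finset ℕ) : Finset ℕ := (range (b ^ k)).filter (fun x => ∀ j < k, x / b ^ j % b ∈ A j)

lemma low_digit {b r j : ℕ} (hb : 1 ≤ b) (hj : j < r) (y z : ℕ) : (z + b ^ r * y) / b ^ j % b = z / b ^ j % b := by
  have e : z + b ^ r * y = z + b ^ j * (b * (b ^ (r - j - 1) * y)) := by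
    have : b ^ r = b ^ j * (b * b ^ (r - j - 1)) := by
      rw [← pow_succ', ← pow_add]
      congr 1
      omega
    rw [this]
    ring
  rw [e, Nat.add_mul_div_left _ _ (Nat.pow_pos hb), Nat.add_mul_mod_self_left]

lemma high_digit {b r j : ℕ} (hb : 1 ≤ b) (hj : r ≤ j) (y z : ℕ) (hz : z < b ^ r) :
    (z + b ^ r * y) / b ^ j = y / b ^ (j - r) := by
  have e : b ^ j = b ^ r * b ^ (j - r) := by
    rw [← pow_add]
    congr 1
    omega
  rw [e, ← Nat.div_div_eq_div_mul, Nat.add_mul_div_left _ _ (Nat.pow_pos hb), Nat.div_eq_of_lt hz, zero_add]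

/-- the lowest `r` digits and the others -/
lemma mem_split {b : ℕ} (hb : 1 ≤ b) (r n : ℕ) (A : ℕ → Finset ℕ) (y z : ℕ) (hz : z < b ^ r) :
    z + b ^ r * y ∈ digs b (r + n) A ↔ y ∈ digs b n (fun j => A (j + r)) ∧ z ∈ digs b r A := by
  unfold digs
  rw [mem_filter, mem_filter, mem_filter, mem_range, mem_range, mem_range]
  have h1 : z + b ^ r * y < b ^ (r + n) ↔ y < b ^ n := by
    rw [pow_add]
    constructor
    · intro h
      by_contra hcon
      push Not at hcon
      have := Nat.mul_le_mul_left (b ^ r) hcon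
      omega
    · intro h
      have := Nat.mul_le_mul_left (b ^ r) (Nat.succ_le_of_lt h)
      rw [Nat.succ_eq_add_one, mul_add, mul_one] at this
      omega
  rw [h1]
  constructor
  · rintro ⟨h2, h3⟩
    refine ⟨⟨h2, fun j hj => ?_⟩, hz, fun j hj => ?_⟩
    · have := h3 (j + r) (by omega)
      rwa [high_digit hb (by omega) y z hz, Nat.add_sub_cancel] at this
    · have := h3 j (by omega)
      rwa [low_digit hb hj] at this
  · rintro ⟨⟨h2, h3⟩, -, h4⟩
    refine ⟨h2, fun j hj => ?_⟩
    rcases Nat.lt_or_ge j r with h | h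
    · rw [low_digit hb h]
      exact h4 j h
    · rw [high_digit hb h y z hz]
      have := h3 (j - r) (by omega)
      simp only at this
      rwa [Nat.sub_add_cancel h] at this

lemma mem_digs_lt {b r z : ℕ} {A : ℕ → Finset ℕ} (h : z ∈ digs b r A) : z < b ^ r := by
  unfold digs at h
  rw [mem_filter, mem_range] at h
  exact h.1

/-- counting with the lowest `r` digits and the others -/
lemma card_split {b : ℕ} (hb : 1 ≤ b) (r n : ℕ) (A : ℕ → Finset ℕ) (V : ℕ → Prop) [DecidablePred V] :
    ((digs b (r + n) A).filter V).card =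
      ((digs b n (fun j => A (j + r)) ×ˢ digs b r A).filter (fun x => V (x.2 + b ^ r * x.1))).card := by
  symm
  refine card_bij (fun x _ => x.2 + b ^ r * x.1) (fun x hx => ?_) (fun x hx x' hx' h => ?_) (fun x hx => ?_)
  · rw [mem_filter, mem_product] at hx
    rw [mem_filter, mem_split hb r n A _ _ (mem_digs_lt hx.1.2)]
    exact hx
  · rw [mem_filter, mem_product] at hx hx'
    have h1 := mem_digs_lt hx.1.2
    have h2 := mem_digs_lt hx'.1.2
    have h3 : x.1 = x'.1 := by
      have e1 := high_digit hb le_rfl x.1 x.2 h1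
      have e2 := high_digit hb le_rfl x'.1 x'.2 h2
      rw [h, e2] at e1
      rw [Nat.sub_self, pow_zero, Nat.div_one, Nat.div_one] at e1
      exact e1.symm
    have h4 : x.2 = x'.2 := by
      simp only [h3] at h
      omega
    exact Prod.ext h3 h4
  · rw [mem_filter] at hx
    have h1 : x % b ^ r + b ^ r * (x / b ^ r) = x := Nat.mod_add_div _ _
    have h2 : x % b ^ r < b ^ r := Nat.mod_lt _ (Nat.pow_pos hb)
    refine ⟨(x / b ^ r, x % b ^ r), ?_, h1⟩
    rw [mem_filter, mem_product]
    simp only
    rw [h1]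
    refine ⟨?_, hx.2⟩
    rw [← mem_split hb r n A _ _ h2, h1]
    exact hx.1

lemma card_mul {b : ℕ} (hb : 1 ≤ b) (r n : ℕ) (A : ℕ → Finset ℕ) :
    (digs b (r + n) A).card = (digs b n (fun j => A (j + r))).card * (digs b r A).card := by
  have := card_split hb r n A (fun _ => True)
  rw [filter_true_of_mem (fun _ _ => trivial), filter_true_of_mem (fun _ _ => trivial), card_product] at this
  exact this

lemma two_pow_le {b : ℕ} (hb : 1 ≤ b) : ∀ (k : ℕ) (A : ℕ → Finset ℕ), (∀ j < k, 1 < (A j ∩ range b).card) →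
    2 ^ k ≤ (digs b k A).card := by
  intro k
  induction k with
  | zero =>
    intro A _
    have : (0 : ℕ) ∈ digs b 0 A := by
      unfold digs
      rw [mem_filter, mem_range]
      exact ⟨by rw [pow_zero]; exact one_pos, fun j hj => absurd hj (Nat.not_lt_zero j)⟩
    rw [pow_zero]
    exact card_pos.2 ⟨0, this⟩
  | succ k ih =>
    intro A hA
    rw [card_mul hb k 1 A, pow_succ']
    refine Nat.mul_le_mul ?_ (ih A (fun j hj => hA j (by omega)))
    have h1 : A k ∩ range b ⊆ digs b 1 (fun j => A (j + k)) := by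
      intro a ha
      rw [mem_inter, mem_range] at ha
      unfold digs
      rw [mem_filter, mem_range, pow_one]
      refine ⟨ha.2, fun j hj => ?_⟩
      have : j = 0 := by omega
      subst this
      simp only
      rw [pow_zero, Nat.div_one, Nat.mod_eq_of_lt ha.2, zero_add]
      exact ha.1
    exact (hA k (by omega)).trans_le (card_le_card h1)

end Pool.Agent.H56.MD
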