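import Pool.Agent.H56.MD.Digits
import Pool.Graph.R_seed8.Helper919.DivBound

/-!
# The values of an integer polynomial at the integers with restricted digits: the exponent `2 / 3`
-/

set_option autoImplicit false

namespace Pool.Agent.H56.MD

open Finset Polynomial

/-- **The values of `U` in an affine image of a set of integers with restricted digits.** -/
lemma one_U2 {d : ℕ} (hd : 2 ≤ d) (U : ℤ[X]) (hU : U.natDegree = d ∨ U.natDegree = 0) {b : ℕ} (hb : 1 ≤ b) (r n : ℕ)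
    (A : ℕ → Finset ℕ) (q : ℕ) (hq : 1 ≤ q) (c : ℤ) (E₀ : ℕ) (hE₀ : ∀ m : ℕ, 1 ≤ m → m < b ^ r → m.divisors.card ≤ E₀)
    (V : ℕ → Prop) [DecidablePred V] (hV : ∀ x, V x → ∃ k : ℤ, U.eval k = c + q * x) :
    (((digs b (r + n) A).filter V).card : ℝ) ≤ (digs b n (fun j => A (j + r))).card +
      (digs b r A).card * √(2 * d * (q.divisors.card * E₀ : ℕ) * (digs b n (fun j => A (j + r))).card) := by
  classical
  obtain ⟨P, hP⟩ : ∃ P : Finset ℤ, P = (digs b n (fun j => A (j + r))).image (fun y : ℕ => c + q * b ^ r * (y : ℤ)) := ⟨_, rfl⟩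
  obtain ⟨Q, hQ⟩ : ∃ Q : Finset ℤ, Q = (digs b r A).image (fun z : ℕ => q * (z : ℤ)) := ⟨_, rfl⟩
  have hq0 : (q : ℤ) ≠ 0 := by exact_mod_cast (by omega : q ≠ 0)
  have hbr : (b : ℤ) ^ r ≠ 0 := by
    have : b ^ r ≠ 0 := (Nat.pow_pos hb).ne'
    exact_mod_cast this
  have hPi : Function.Injective (fun y : ℕ => c + q * b ^ r * (y : ℤ)) := by
    intro y y' h
    simp only at h
    have h1 := mul_left_cancel₀ (mul_ne_zero hq0 hbr) (add_left_cancel h)
    exact_mod_cast h1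
  have hQi : Function.Injective (fun z : ℕ => q * (z : ℤ)) := by
    intro z z' h
    have h1 := mul_left_cancel₀ hq0 h
    exact_mod_cast h1
  have hPc : P.card = (digs b n (fun j => A (j + r))).card := by rw [hP, card_image_of_injective _ hPi]
  have hQc : Q.card = (digs b r A).card := by rw [hQ, card_image_of_injective _ hQi]
  have hE : ∀ a ∈ Q, ∀ a' ∈ Q, a ≠ a' → (a - a').natAbs.divisors.card ≤ q.divisors.card * E₀ := by
    intro a ha a' ha' hne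
    rw [hQ, mem_image] at ha ha'
    obtain ⟨z, hz, rfl⟩ := ha
    obtain ⟨z', hz', rfl⟩ := ha'
    have hzz : z ≠ z' := by
      rintro rfl
      exact hne rfl
    have e1 : (q : ℤ) * z - q * z' = q * ((z : ℤ) - z') := by ring
    have h1 := mem_digs_lt hz
    have h2 := mem_digs_lt hz'
    rw [e1, Int.natAbs_mul, Int.natAbs_natCast, Nat.divisors_mul]
    refine (card_mul_le).trans (Nat.mul_le_mul_left _ (hE₀ _ ?_ ?_))
    · omega
    · omega
  have h1 := values_sum hd U hU P Q (q.divisors.card * E₀) hE (fun t => ∃ k : ℤ, U.eval k = t) (fun t ht => ht)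
  rw [hPc, hQc] at h1
  refine le_trans ?_ h1
  rw [card_split hb r n A V]
  norm_cast
  refine card_le_card_of_injOn (fun x => (c + q * b ^ r * (x.1 : ℤ), q * (x.2 : ℤ))) ?_ ?_
  · intro x hx
    rw [coe_filter, Set.mem_ofPred_eq, mem_product] at hx
    rw [coe_filter, Set.mem_ofPred_eq, mem_product, hP, hQ]
    refine ⟨⟨mem_image_of_mem _ hx.1.1, mem_image_of_mem _ hx.1.2⟩, ?_⟩
    obtain ⟨k, hk⟩ := hV _ hx.2
    refine ⟨k, ?_⟩
    rw [hk]
    push_cast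
    ring
  · intro x _ x' _ h
    rw [Prod.ext_iff] at h
    exact Prod.ext (hPi h.1) (hQi h.2)

/-- the place where the digits are split -/
lemma choose_r {b : ℕ} (hb : 2 ≤ b) (k : ℕ) (A : ℕ → Finset ℕ) (hA : ∀ j < k, 1 < (A j ∩ range b).card) :
    ∃ r n : ℕ, k = r + n ∧ (digs b r A).card ^ 3 ≤ (digs b k A).card ∧ (digs b k A).card ≤ (b * (digs b r A).card) ^ 3 := by
  classical
  have hb1 : 1 ≤ b := by omega
  have hW : 1 ≤ (digs b k A).card := Nat.one_le_two_pow.trans (two_pow_le hb1 k A hA)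
  obtain ⟨r, hr⟩ : ∃ r : ℕ, r = Nat.findGreatest (fun r => (digs b r A).card ^ 3 ≤ (digs b k A).card) k := ⟨_, rfl⟩
  have h0 : (digs b 0 A).card ^ 3 ≤ (digs b k A).card := by
    have : (digs b 0 A).card ≤ 1 := by
      refine (card_filter_le _ _).trans ?_
      rw [card_range, pow_zero]
    calc (digs b 0 A).card ^ 3 ≤ 1 ^ 3 := Nat.pow_le_pow_left this 3
      _ ≤ _ := by rw [one_pow]; exact hW
  have hrk : r ≤ k := by rw [hr]; exact Nat.findGreatest_le k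
  have hP : (digs b r A).card ^ 3 ≤ (digs b k A).card := by
    rw [hr]
    exact Nat.findGreatest_spec (P := fun r => (digs b r A).card ^ 3 ≤ (digs b k A).card) (Nat.zero_le k) h0
  refine ⟨r, k - r, by omega, hP, ?_⟩
  rcases Nat.lt_or_ge r k with h | h
  · have h1 : ¬ (digs b (r + 1) A).card ^ 3 ≤ (digs b k A).card := by
      apply Nat.findGreatest_is_greatest (P := fun r => (digs b r A).card ^ 3 ≤ (digs b k A).card) (n := k)
      · rw [← hr]; omega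
      · omega
    have h2 : (digs b (r + 1) A).card ≤ b * (digs b r A).card := by
      rw [card_mul hb1 r 1 A]
      apply Nat.mul_le_mul_right
      refine (card_filter_le _ _).trans ?_
      rw [card_range, pow_one]
    exact (not_le.1 h1).le.trans (Nat.pow_le_pow_left h2 3)
  · have h1 : r = k := by omega
    rw [h1]
    calc (digs b k A).card ≤ (digs b k A).card ^ 3 := Nat.le_self_pow (by norm_num) _
      _ ≤ _ := Nat.pow_le_pow_left (Nat.le_mul_of_pos_left _ (by omega)) 3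

/-- **The exponent `2 / 3`.** -/
theorem digits_values (d b : ℕ) (hd : 2 ≤ d) (hb : 2 ≤ b) (ε : ℝ) (hε : 0 < ε) : ∃ C : ℝ, 0 ≤ C ∧
    ∀ U : ℤ[X], (U.natDegree = d ∨ U.natDegree = 0) → ∀ (k : ℕ) (A : ℕ → Finset ℕ), (∀ j < k, 1 < (A j ∩ range b).card) →
      ∀ (q : ℕ) (c : ℤ), 1 ≤ q → ∀ (V : ℕ → Prop) [DecidablePred V], (∀ x, V x → ∃ l : ℤ, U.eval l = c + q * x) →
      (((digs b k A).filter V).card : ℝ) ≤ C * √(q.divisors.card) * ((digs b k A).card : ℝ) ^ (2 / 3 + ε) := by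
  obtain ⟨β, hβ⟩ : ∃ β : ℕ, β = Nat.clog 2 b := ⟨_, rfl⟩
  have hbβ : b ≤ 2 ^ β := by rw [hβ]; exact Nat.le_pow_clog (by norm_num) b
  obtain ⟨κ, hκ⟩ : ∃ κ : ℕ, κ = ⌈(β : ℝ) / (2 * ε)⌉₊ + 1 := ⟨_, rfl⟩
  have hκ0 : (0 : ℝ) < κ := by rw [hκ]; positivity
  have hκ1 : (β : ℝ) / κ ≤ 2 * ε := by
    rw [div_le_iff₀ hκ0]
    have h1 : (β : ℝ) / (2 * ε) ≤ κ := by
      rw [hκ]
      push_cast
      linarith [Nat.le_ceil ((β : ℝ) / (2 * ε))]
    rw [div_le_iff₀ (by positivity)] at h1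
    linarith
  obtain ⟨C₀, hC₀, hdiv⟩ := Pool.Agent.Helper919.card_divisors_pow_le κ
  obtain ⟨C₁, hC₁⟩ : ∃ C₁ : ℝ, C₁ = (C₀ : ℝ) ^ (1 / (κ : ℝ)) := ⟨_, rfl⟩
  have hC₁0 : 0 ≤ C₁ := by rw [hC₁]; positivity
  refine ⟨b + √(2 * d * C₁), by positivity, ?_⟩
  intro U hU k A hA q c hq V _ hV
  have hb1 : 1 ≤ b := by omega
  obtain ⟨r, n, hk, hr1, hr2⟩ := choose_r hb k A hA
  obtain ⟨W, hW⟩ : ∃ W : ℝ, W = ((digs b k A).card : ℝ) := ⟨_, rfl⟩
  have hW2 : (2 : ℝ) ^ k ≤ W := by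
    rw [hW]
    exact_mod_cast two_pow_le hb1 k A hA
  have hW1 : 1 ≤ W := (one_le_pow₀ (by norm_num)).trans hW2
  have hW0 : 0 < W := by linarith
  obtain ⟨E₀, hE₀⟩ : ∃ E₀ : ℕ, E₀ = ⌊C₁ * W ^ (2 * ε)⌋₊ := ⟨_, rfl⟩
  have hE₀' : (E₀ : ℝ) ≤ C₁ * W ^ (2 * ε) := by
    rw [hE₀]
    exact Nat.floor_le (by positivity)
  have hE : ∀ m : ℕ, 1 ≤ m → m < b ^ r → m.divisors.card ≤ E₀ := by
    intro m hm1 hm2
    rw [hE₀]
    apply Nat.le_floor
    have h1 : ((m.divisors.card : ℕ) : ℝ) ^ κ ≤ C₀ * W ^ β := by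
      have h2 : m.divisors.card ^ κ ≤ C₀ * m := hdiv m (by omega)
      have h3 : (m : ℝ) ≤ W ^ β := by
        have h4 : m ≤ (2 ^ k) ^ β := by
          calc m ≤ b ^ r := hm2.le
            _ ≤ b ^ k := Nat.pow_le_pow_right hb1 (by omega)
            _ ≤ (2 ^ β) ^ k := Nat.pow_le_pow_left hbβ k
            _ = (2 ^ k) ^ β := by rw [← pow_mul, ← pow_mul, mul_comm]
        have h5 : (m : ℝ) ≤ (2 ^ k) ^ β := by exact_mod_cast h4
        exact h5.trans (pow_le_pow_left₀ (by positivity) hW2 β)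
      calc ((m.divisors.card : ℕ) : ℝ) ^ κ ≤ C₀ * m := by exact_mod_cast h2
        _ ≤ C₀ * W ^ β := mul_le_mul_of_nonneg_left h3 (Nat.cast_nonneg _)
    have hκn : κ ≠ 0 := by rw [hκ]; omega
    calc ((m.divisors.card : ℕ) : ℝ) = (((m.divisors.card : ℕ) : ℝ) ^ κ) ^ (1 / (κ : ℝ)) := by
          rw [one_div, Real.pow_rpow_inv_natCast (Nat.cast_nonneg _) hκn]
      _ ≤ (C₀ * W ^ β) ^ (1 / (κ : ℝ)) := Real.rpow_le_rpow (by positivity) h1 (by positivity)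
      _ = C₁ * W ^ ((β : ℝ) / κ) := by
          rw [Real.mul_rpow (by positivity) (by positivity), hC₁, ← Real.rpow_natCast W β, ← Real.rpow_mul hW0.le]
          congr 2
          ring
      _ ≤ C₁ * W ^ (2 * ε) := mul_le_mul_of_nonneg_left (Real.rpow_le_rpow_of_exponent_le hW1 hκ1) hC₁0
  have hmain := one_U2 hd U hU hb1 r n A q hq c E₀ hE V hV
  rw [← hk] at hmain
  obtain ⟨p, hp⟩ : ∃ p : ℝ, p = ((digs b n (fun j => A (j + r))).card : ℝ) := ⟨_, rfl⟩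
  obtain ⟨Q, hQ⟩ : ∃ Q : ℝ, Q = ((digs b r A).card : ℝ) := ⟨_, rfl⟩
  rw [← hp, ← hQ] at hmain
  have hpQ : p * Q = W := by
    rw [hp, hQ, hW, hk, card_mul hb1 r n A]
    push_cast
    ring
  obtain ⟨w, hw⟩ : ∃ w : ℝ, w = W ^ (1 / (3 : ℝ)) := ⟨_, rfl⟩
  have hw0 : 0 < w := by rw [hw]; positivity
  have hw3 : w ^ 3 = W := by
    rw [hw, ← Real.rpow_natCast, ← Real.rpow_mul hW0.le]
    norm_num
  have hw2 : w ^ 2 = W ^ (2 / (3 : ℝ)) := by
    rw [hw, ← Real.rpow_natCast, ← Real.rpow_mul hW0.le]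
    norm_num
  have hp0 : 0 ≤ p := by rw [hp]; positivity
  have hQ0 : 0 ≤ Q := by rw [hQ]; positivity
  have hQw : Q ≤ w := by
    have h1 : Q ^ 3 ≤ w ^ 3 := by
      rw [hw3, hQ, hW]
      exact_mod_cast hr1
    exact le_of_pow_le_pow_left₀ (by norm_num) hw0.le h1
  have hwQ : w ≤ b * Q := by
    have h1 : w ^ 3 ≤ (b * Q) ^ 3 := by
      rw [hw3, hQ, hW]
      exact_mod_cast hr2
    exact le_of_pow_le_pow_left₀ (by norm_num) (by positivity) h1
  have hpw : p ≤ b * w ^ 2 := by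
    have h1 : p * w ≤ b * w ^ 2 * w := by
      calc p * w ≤ p * (b * Q) := mul_le_mul_of_nonneg_left hwQ hp0
        _ = b * (p * Q) := by ring
        _ = b * w ^ 2 * w := by rw [hpQ, ← hw3]; ring
    exact le_of_mul_le_mul_right h1 hw0
  obtain ⟨τ, hτ⟩ : ∃ τ : ℝ, τ = (q.divisors.card : ℝ) := ⟨_, rfl⟩
  have hτ1 : 1 ≤ τ := by
    rw [hτ]
    have : 1 ≤ q.divisors.card := card_pos.2 ⟨1, Nat.one_mem_divisors.2 (by omega)⟩
    exact_mod_cast this
  have hWε : 1 ≤ W ^ ε := Real.one_le_rpow hW1 hε.le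
  have hsq : Q * √(2 * d * (q.divisors.card * E₀ : ℕ) * p) ≤ √(2 * d * C₁) * √τ * W ^ ε * w ^ 2 := by
    have h1 : Q * √(2 * d * (q.divisors.card * E₀ : ℕ) * p) = √(2 * d * (q.divisors.card * E₀ : ℕ) * p * Q ^ 2) := by
      rw [Real.sqrt_mul (by positivity) (Q ^ 2), Real.sqrt_sq hQ0, mul_comm]
    have h2 : √(2 * d * C₁) * √τ * W ^ ε * w ^ 2 = √(2 * d * C₁ * τ * (W ^ ε * w ^ 2) ^ 2) := by
      rw [Real.sqrt_mul (by positivity) ((W ^ ε * w ^ 2) ^ 2), Real.sqrt_sq (by positivity),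
        Real.sqrt_mul (by positivity) τ]
      ring
    rw [h1, h2]
    apply Real.sqrt_le_sqrt
    have h3 : p * Q ^ 2 ≤ w ^ 4 := by
      calc p * Q ^ 2 = p * Q * Q := by ring
        _ ≤ W * w := by rw [hpQ]; exact mul_le_mul_of_nonneg_left hQw hW0.le
        _ = w ^ 4 := by rw [← hw3]; ring
    have h4 : (W ^ ε) ^ 2 = W ^ (2 * ε) := by
      rw [← Real.rpow_natCast, ← Real.rpow_mul hW0.le]
      congr 1
      push_cast
      ring
    calc 2 * d * ((q.divisors.card * E₀ : ℕ) : ℝ) * p * Q ^ 2 = 2 * d * τ * E₀ * (p * Q ^ 2) := by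
          rw [hτ]; push_cast; ring
      _ ≤ 2 * d * τ * (C₁ * W ^ (2 * ε)) * w ^ 4 := by
          apply mul_le_mul _ h3 (by positivity) (by positivity)
          exact mul_le_mul_of_nonneg_left hE₀' (by positivity)
      _ = 2 * d * C₁ * τ * (W ^ ε * w ^ 2) ^ 2 := by rw [mul_pow, h4]; ring
  have hsτ : 1 ≤ √τ := Real.one_le_sqrt.2 hτ1
  rw [← hW, ← hτ]
  have hexp : W ^ (2 / 3 + ε) = w ^ 2 * W ^ ε := by rw [Real.rpow_add hW0, hw2]
  rw [hexp]
  calc (((digs b k A).filter V).card : ℝ) ≤ p + Q * √(2 * d * (q.divisors.card * E₀ : ℕ) * p) := hmain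
    _ ≤ b * w ^ 2 + √(2 * d * C₁) * √τ * W ^ ε * w ^ 2 := add_le_add hpw hsq
    _ ≤ b * w ^ 2 * (√τ * W ^ ε) + √(2 * d * C₁) * √τ * W ^ ε * w ^ 2 := by
        apply add_le_add_left
        apply le_mul_of_one_le_right (by positivity)
        exact one_le_mul_of_one_le_of_one_le hsτ hWε
    _ = (b + √(2 * d * C₁)) * √τ * (w ^ 2 * W ^ ε) := by ring

end Pool.Agent.H56.MD
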