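import Mathlib

/-!
# The values of an integer polynomial in a union of intervals

If `U` is an integer polynomial of degree `d ≥ 2` and `T` a finite set of integers then at most
`(d - 1) Δ + 2 d M` elements of `T` are values of `U`, where `M` is the number of the intervals
`[i L, (i + 1) L)` that meet `T`, `L ≤ Δ ^ (d - 1)`. The bound does not depend on the coefficients of `U`.
-/

set_option autoImplicit false

namespace Pool.Agent.H56.MD

open Finset Polynomial

/-- Lagrange interpolation: a polynomial which is small at separated points has a small leading coefficient -/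
lemma sep_points {m : ℕ} (V : ℝ[X]) (hV : V.natDegree ≤ m) {L Δ : ℝ} (hΔ : 0 < Δ) (x : ℕ → ℝ)
    (hx : ∀ i j, i < j → j ≤ m → x i + Δ ≤ x j) (hL : ∀ i ≤ m, |V.eval (x i)| ≤ L) :
    |V.coeff m| * Δ ^ m ≤ (m + 1) * L := by
  obtain ⟨s, hs⟩ : ∃ s : Finset ℕ, s = range (m + 1) := ⟨_, rfl⟩
  have hmem : ∀ i, i ∈ s ↔ i ≤ m := by intro i; rw [hs, mem_range]; omega
  have hcard : s.card = m + 1 := by rw [hs, card_range]
  have hne : ∀ i ∈ s, ∀ j ∈ s, i ≠ j → Δ ≤ |x i - x j| := by
    intro i hi j hj hij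
    rw [hmem] at hi hj
    rcases lt_or_gt_of_ne hij with h | h
    · have := hx i j h hj
      rw [abs_sub_comm, le_abs]
      left; linarith
    · have := hx j i h hi
      rw [le_abs]
      left; linarith
  have hinj : Set.InjOn x s := by
    intro i hi j hj hij
    by_contra hcon
    have := hne i hi j hj hcon
    rw [hij, sub_self, abs_zero] at this
    linarith
  have hdeg : V.degree < s.card := by
    rw [hcard]
    exact lt_of_le_of_lt (degree_le_of_natDegree_le hV) (by exact_mod_cast Nat.lt_succ_self m)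
  have h1 := Lagrange.eq_interpolate hinj hdeg
  have hco : V.coeff m = ∑ i ∈ s, V.eval (x i) * ∏ j ∈ s.erase i, (x i - x j)⁻¹ := by
    conv_lhs => rw [h1]
    rw [Lagrange.interpolate_apply, finsetSum_coeff]
    apply sum_congr rfl
    intro i hi
    rw [coeff_C_mul]
    congr 1
    unfold Lagrange.basis
    have h2 := coeff_prod_of_natDegree_le (s.erase i) (fun j => Lagrange.basisDivisor (x i) (x j)) 1 (by
      intro j hj
      have := (natDegree_C_mul_le (x i - x j)⁻¹ (X - C (x j))).trans (natDegree_X_sub_C_le _)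
      exact this)
    rw [card_erase_of_mem hi, hcard, Nat.add_sub_cancel, mul_one] at h2
    rw [h2]
    apply prod_congr rfl
    intro j _
    unfold Lagrange.basisDivisor
    rw [coeff_C_mul]
    simp
  rw [hco]
  have h3 : |∑ i ∈ s, V.eval (x i) * ∏ j ∈ s.erase i, (x i - x j)⁻¹| ≤ ∑ _i ∈ s, L * (Δ ^ m)⁻¹ := by
    refine (abs_sum_le_sum_abs _ _).trans (sum_le_sum fun i hi => ?_)
    rw [abs_mul]
    have hL0 : 0 ≤ L := (abs_nonneg _).trans (hL i ((hmem i).1 hi))
    refine mul_le_mul (hL i ((hmem i).1 hi)) ?_ (abs_nonneg _) hL0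
    rw [abs_prod]
    calc ∏ j ∈ s.erase i, |(x i - x j)⁻¹| ≤ ∏ _j ∈ s.erase i, Δ⁻¹ := by
          apply prod_le_prod (fun _ _ => abs_nonneg _)
          intro j hj
          rw [abs_inv]
          exact inv_anti₀ hΔ (hne i hi j (mem_of_mem_erase hj) (ne_of_mem_erase hj).symm)
      _ = (Δ ^ m)⁻¹ := by
          rw [prod_const, card_erase_of_mem hi, hcard, Nat.add_sub_cancel, inv_pow]
  rw [sum_const, hcard, nsmul_eq_mul] at h3
  have hp : 0 < Δ ^ m := by positivity
  calc _ ≤ (((m + 1 : ℕ) : ℝ) * (L * (Δ ^ m)⁻¹)) * Δ ^ m := mul_le_mul_of_nonneg_right h3 hp.le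
    _ = (m + 1) * L := by
        push_cast
        field_simp

/-- a large set of integers contains separated points -/
lemma greedy (Δ : ℕ) (m : ℕ) : ∀ S : Finset ℤ, m * Δ < S.card →
    ∃ x : ℕ → ℤ, (∀ i ≤ m, x i ∈ S) ∧ ∀ i j, i < j → j ≤ m → x i + Δ ≤ x j := by
  induction m with
  | zero =>
    intro S hS
    rw [zero_mul, card_pos] at hS
    obtain ⟨a, ha⟩ := hS
    exact ⟨fun _ => a, fun _ _ => ha, fun i j h1 h2 => by omega⟩
  | succ m ih =>
    intro S hS
    have hne : S.Nonempty := by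
      rw [← card_pos]; omega
    obtain ⟨a, ha⟩ : ∃ a, a = S.min' hne := ⟨_, rfl⟩
    obtain ⟨S', hS'⟩ : ∃ S', S' = S.filter (fun t => a + Δ ≤ t) := ⟨_, rfl⟩
    have h1 : S.card ≤ S'.card + Δ := by
      have h2 : S ⊆ S' ∪ Ico a (a + Δ) := by
        intro t ht
        rw [mem_union, hS', mem_filter, mem_Ico]
        have h3 : a ≤ t := by rw [ha]; exact min'_le _ _ ht
        by_cases h4 : a + Δ ≤ t
        · exact Or.inl ⟨ht, h4⟩
        · exact Or.inr ⟨h3, by omega⟩
      have h5 := (card_le_card h2).trans (card_union_le _ _)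
      rw [Int.card_Ico] at h5
      have h6 : (a + Δ - a).toNat = Δ := by omega
      rw [h6] at h5
      exact h5
    have h2 : m * Δ < S'.card := by
      have : (m + 1) * Δ = m * Δ + Δ := by ring
      omega
    obtain ⟨x, hx1, hx2⟩ := ih S' h2
    refine ⟨fun i => if i = 0 then a else x (i - 1), fun i hi => ?_, fun i j hij hj => ?_⟩
    · by_cases h0 : i = 0
      · simp only [h0, if_true]
        rw [ha]
        exact min'_mem _ _
      · simp only [h0, if_false]
        have := hx1 (i - 1) (by omega)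
        rw [hS', mem_filter] at this
        exact this.1
    · have hj0 : j ≠ 0 := by omega
      by_cases h0 : i = 0
      · simp only [h0, if_true, hj0, if_false]
        have := hx1 (j - 1) (by omega)
        rw [hS', mem_filter] at this
        exact this.2
      · simp only [h0, if_false, hj0]
        exact hx2 (i - 1) (j - 1) (by omega) (by omega)

/-- the number of integers at which a polynomial is small -/
lemma sublevel {m : ℕ} (V : ℤ[X]) (hV : V.natDegree ≤ m) (Δ L : ℕ) (hΔ : 1 ≤ Δ)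
    (hL : (m + 1) * (L : ℤ) < |V.coeff m| * Δ ^ m) (S : Finset ℤ) (hS : ∀ k ∈ S, |V.eval k| ≤ L) :
    S.card ≤ m * Δ := by
  by_contra hcon
  push Not at hcon
  obtain ⟨x, hx1, hx2⟩ := greedy Δ m S hcon
  have h1 := sep_points (V.map (Int.castRingHom ℝ)) (natDegree_map_le.trans hV) (L := L) (Δ := Δ)
    (by exact_mod_cast hΔ) (fun i => (x i : ℝ)) (fun i j hij hj => by exact_mod_cast hx2 i j hij hj)
    (fun i hi => by
      have h2 := hS _ (hx1 i hi)
      have h3 : (V.map (Int.castRingHom ℝ)).eval ((x i : ℤ) : ℝ) = ((V.eval (x i) : ℤ) : ℝ) := by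
        rw [eval_intCast_map]; simp
      rw [h3]
      exact_mod_cast h2)
  rw [coeff_map] at h1
  simp only [eq_intCast] at h1
  have h2 : |V.coeff m| * (Δ : ℤ) ^ m ≤ (m + 1) * (L : ℤ) := by exact_mod_cast h1
  linarith

/-- the difference polynomial -/
lemma diff_poly {d : ℕ} (hd : 1 ≤ d) (U : ℤ[X]) (hU : U.natDegree = d) :
    ∃ W : ℤ[X], W.natDegree ≤ d - 1 ∧ W.coeff (d - 1) = d * U.coeff d ∧
      ∀ k : ℤ, W.eval k = U.eval (k + 1) - U.eval k := by
  refine ⟨taylor 1 U - U, ?_, ?_, fun k => ?_⟩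
  · rw [natDegree_le_iff_coeff_eq_zero]
    intro n hn
    rw [coeff_sub, taylor_coeff]
    rcases Nat.lt_or_ge d n with h | h
    · rw [coeff_eq_zero_of_natDegree_lt (by omega : U.natDegree < n), hasseDeriv_eq_zero_of_lt_natDegree _ _ (by omega)]
      simp
    · have hn' : n = d := by omega
      subst hn'
      have h1 : (hasseDeriv n U).natDegree ≤ 0 := by
        refine (natDegree_hasseDeriv_le _ _).trans ?_
        omega
      rw [eq_C_of_natDegree_le_zero h1, eval_C, hasseDeriv_coeff]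
      simp
  · rw [coeff_sub, taylor_coeff]
    have h1 : (hasseDeriv (d - 1) U).natDegree < 2 := by
      refine lt_of_le_of_lt (natDegree_hasseDeriv_le _ _) ?_
      omega
    rw [eval_eq_sum_range' h1]
    simp only [sum_range_succ, sum_range_zero, hasseDeriv_coeff, one_pow, mul_one, zero_add]
    have e1 : 1 + (d - 1) = d := by omega
    rw [e1, Nat.choose_self, Nat.cast_one, one_mul]
    have e2 : d.choose (d - 1) = d := by
      rw [Nat.choose_symm_of_eq_add (by omega : d = (d - 1) + 1)]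
      simp
    rw [e2]
    ring
  · rw [eval_sub, taylor_eval]

/-- two integers in the same block -/
lemma same_block (L : ℕ) (hL : 1 ≤ L) (a b : ℤ) (h : a / (L : ℤ) = b / (L : ℤ)) : |a - b| ≤ ((L - 1 : ℕ) : ℤ) := by
  have hL' : (0 : ℤ) < L := by exact_mod_cast hL
  have h1 := Int.mul_ediv_add_emod a L
  have h2 := Int.mul_ediv_add_emod b L
  have h3 := Int.emod_lt_of_pos a hL'
  have h4 := Int.emod_lt_of_pos b hL'
  have h5 := Int.emod_nonneg a hL'.ne'
  have h6 := Int.emod_nonneg b hL'.ne'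
  rw [h] at h1
  rw [Nat.cast_sub hL, Nat.cast_one, abs_le]
  constructor <;> linarith

/-- the number of the places where a polynomial leaves a block -/
lemma exits {d : ℕ} (hd : 1 ≤ d) (U : ℤ[X]) (hU : U.natDegree = d) (L : ℕ) (hL : 1 ≤ L) (i : ℤ) (N : Finset ℤ)
    (hN : ∀ k ∈ N, U.eval k / (L : ℤ) = i ∧ U.eval (k + 1) / (L : ℤ) ≠ i) : N.card ≤ 2 * d := by
  classical
  have hL' : (0 : ℤ) < L := by exact_mod_cast hL
  obtain ⟨α, hα⟩ : ∃ α : ℝ, α = i * L - 1 / 2 := ⟨_, rfl⟩
  obtain ⟨β, hβ⟩ : ∃ β : ℝ, β = (i + 1) * L - 1 / 2 := ⟨_, rfl⟩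
  obtain ⟨V, hV⟩ : ∃ V : ℝ[X], V = U.map (Int.castRingHom ℝ) := ⟨_, rfl⟩
  have hVd : V.natDegree = d := by
    rw [hV, natDegree_map_eq_of_injective (RingHom.injective_int _), hU]
  have hVe : ∀ k : ℤ, V.eval (k : ℝ) = ((U.eval k : ℤ) : ℝ) := by
    intro k
    rw [hV, eval_intCast_map]; simp
  obtain ⟨P, hP⟩ : ∃ P : ℝ[X], P = (V - C α) * (V - C β) := ⟨_, rfl⟩
  have hα0 : (V - C α).natDegree = d := by rw [natDegree_sub_C, hVd]
  have hβ0 : (V - C β).natDegree = d := by rw [natDegree_sub_C, hVd]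
  have hn1 : V - C α ≠ 0 := by intro h; rw [h, natDegree_zero] at hα0; omega
  have hn2 : V - C β ≠ 0 := by intro h; rw [h, natDegree_zero] at hβ0; omega
  have hP0 : P ≠ 0 := by rw [hP]; exact mul_ne_zero hn1 hn2
  have hPd : P.natDegree = 2 * d := by rw [hP, natDegree_mul hn1 hn2, hα0, hβ0]; ring
  have hPe : ∀ k : ℤ, P.eval (k : ℝ) = (((U.eval k : ℤ) : ℝ) - α) * (((U.eval k : ℤ) : ℝ) - β) := by
    intro k
    rw [hP, eval_mul, eval_sub, eval_sub, eval_C, eval_C, hVe]
  have hroot : ∀ k ∈ N, ∃ r : ℝ, (k : ℝ) < r ∧ r < k + 1 ∧ P.eval r = 0 := by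
    intro k hk
    obtain ⟨h1, h2⟩ := hN k hk
    have a1 : i * L ≤ U.eval k := by rw [← h1]; exact Int.ediv_mul_le _ hL'.ne'
    have a2 : U.eval k < (i + 1) * L := by rw [← h1]; exact Int.lt_ediv_add_one_mul_self _ hL'
    have a1r : (i : ℝ) * L ≤ (U.eval k : ℤ) := by exact_mod_cast a1
    have a2r : ((U.eval k : ℤ) : ℝ) ≤ (i + 1) * L - 1 := by
      have : U.eval k ≤ (i + 1) * L - 1 := by omega
      exact_mod_cast this
    have n1 : P.eval (k : ℝ) < 0 := by
      rw [hPe]
      apply mul_neg_of_pos_of_neg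
      · rw [hα]; linarith
      · rw [hβ]; linarith
    have n2 : 0 < P.eval ((k : ℝ) + 1) := by
      have e1 : (k : ℝ) + 1 = ((k + 1 : ℤ) : ℝ) := by push_cast; ring
      rw [e1, hPe]
      rcases lt_or_gt_of_ne h2 with h | h
      · have b1 : U.eval (k + 1) < i * L := Int.lt_mul_of_ediv_lt hL' h
        have b2 : ((U.eval (k + 1) : ℤ) : ℝ) ≤ i * L - 1 := by
          have : U.eval (k + 1) ≤ i * L - 1 := by omega
          exact_mod_cast this
        apply mul_pos_of_neg_of_neg
        · rw [hα]; linarith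
        · rw [hβ]
          have : (0 : ℝ) < L := by exact_mod_cast hL'
          linarith
      · have b1 : (i + 1) * L ≤ U.eval (k + 1) := by
          have h3 : i + 1 ≤ U.eval (k + 1) / L := h
          exact (mul_le_mul_of_nonneg_right h3 hL'.le).trans (Int.ediv_mul_le _ hL'.ne')
        have b2 : ((i : ℝ) + 1) * L ≤ (U.eval (k + 1) : ℤ) := by exact_mod_cast b1
        have : (0 : ℝ) < L := by exact_mod_cast hL'
        apply mul_pos
        · rw [hα]; linarith
        · rw [hβ]; linarith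
    have h3 : (0 : ℝ) ∈ Set.Ioo (P.eval (k : ℝ)) (P.eval ((k : ℝ) + 1)) := ⟨n1, n2⟩
    obtain ⟨r, hr1, hr2⟩ := intermediate_value_Ioo (by linarith : (k : ℝ) ≤ k + 1) P.continuous.continuousOn h3
    exact ⟨r, hr1.1, hr1.2, hr2⟩
  choose! r hr1 hr2 hr3 using hroot
  have h1 : (N.image r).card = N.card := by
    apply card_image_of_injOn
    intro a ha b hb hab
    have f1 : ⌊r a⌋ = a := by
      rw [Int.floor_eq_iff]; exact ⟨(hr1 a ha).le, hr2 a ha⟩
    have f2 : ⌊r b⌋ = b := by
      rw [Int.floor_eq_iff]; exact ⟨(hr1 b hb).le, hr2 b hb⟩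
    rw [← f1, ← f2]
    exact congrArg _ hab
  have h2 : N.image r ⊆ P.roots.toFinset := by
    intro y hy
    rw [mem_image] at hy
    obtain ⟨k, hk, rfl⟩ := hy
    rw [Multiset.mem_toFinset, mem_roots hP0, IsRoot.def]
    exact hr3 k hk
  rw [← h1, ← hPd]
  exact (card_le_card h2).trans ((Multiset.toFinset_card_le _).trans (card_roots' _))

open Classical in
/-- the number of the elements of a finite set which are values of a polynomial of degree at least two -/
theorem values_in {d : ℕ} (hd : 2 ≤ d) (U : ℤ[X]) (hU : U.natDegree = d) (T : Finset ℤ) (Δ L : ℕ) (hL : 1 ≤ L)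
    (hLΔ : L ≤ Δ ^ (d - 1)) :
    (T.filter (fun t => ∃ k : ℤ, U.eval k = t)).card ≤ (d - 1) * Δ + 2 * d * (T.image (fun t => t / (L : ℤ))).card := by
  obtain ⟨A, hA⟩ : ∃ A, A = T.filter (fun t => ∃ k : ℤ, U.eval k = t) := ⟨_, rfl⟩
  rw [← hA]
  have hk : ∀ t ∈ A, ∃ k : ℤ, U.eval k = t := by
    intro t ht
    rw [hA, mem_filter] at ht
    exact ht.2
  choose! κ hκ using hk
  obtain ⟨A1, hA1⟩ : ∃ A1, A1 = A.filter (fun t => U.eval (κ t + 1) / (L : ℤ) = t / (L : ℤ)) := ⟨_, rfl⟩
  obtain ⟨A2, hA2⟩ : ∃ A2, A2 = A.filter (fun t => ¬ U.eval (κ t + 1) / (L : ℤ) = t / (L : ℤ)) := ⟨_, rfl⟩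
  have hsplit : A.card = A1.card + A2.card := by
    rw [hA1, hA2, card_filter_add_card_filter_not]
  have hΔ : 1 ≤ Δ := by
    rcases Nat.eq_zero_or_pos Δ with h | h
    · rw [h, zero_pow (by omega)] at hLΔ; omega
    · exact h
  have hinj : Set.InjOn κ A := by
    intro a ha b hb hab
    rw [← hκ a ha, ← hκ b hb, hab]
  have h1 : A1.card ≤ (d - 1) * Δ := by
    obtain ⟨W, hW1, hW2, hW3⟩ := diff_poly (by omega) U hU
    have hsub : A1 ⊆ A := by rw [hA1]; exact filter_subset _ _
    rw [← card_image_of_injOn (hinj.mono (by exact_mod_cast hsub))]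
    apply sublevel W hW1 Δ (L - 1) hΔ
    · rw [hW2, abs_mul]
      have h2 : 1 ≤ |U.coeff d| := by
        apply Int.one_le_abs
        rw [← hU]
        intro h0
        have : U = 0 := leadingCoeff_eq_zero.1 h0
        rw [this, natDegree_zero] at hU
        omega
      have h3 : ((d - 1 : ℕ) : ℤ) + 1 = d := by omega
      rw [h3]
      have h4 : ((L - 1 : ℕ) : ℤ) < (Δ : ℤ) ^ (d - 1) := by
        have : L - 1 < Δ ^ (d - 1) := by omega
        exact_mod_cast this
      have h5 : (0 : ℤ) < d := by omega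
      calc (d : ℤ) * ((L - 1 : ℕ) : ℤ) < d * (Δ : ℤ) ^ (d - 1) := mul_lt_mul_of_pos_left h4 h5
        _ = |(d : ℤ)| * 1 * (Δ : ℤ) ^ (d - 1) := by rw [abs_of_pos h5, mul_one]
        _ ≤ |(d : ℤ)| * |U.coeff d| * (Δ : ℤ) ^ (d - 1) := by
            apply mul_le_mul_of_nonneg_right _ (by positivity)
            exact mul_le_mul_of_nonneg_left h2 (abs_nonneg _)
    · intro k hk
      rw [mem_image] at hk
      obtain ⟨t, ht, rfl⟩ := hk
      rw [hA1, mem_filter] at ht
      rw [hW3, hκ t ht.1]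
      exact same_block L hL _ _ ht.2
  have h2 : A2.card ≤ 2 * d * (T.image (fun t => t / (L : ℤ))).card := by
    have h3 := card_le_mul_card_image (f := fun t => t / (L : ℤ)) A2 (2 * d) (by
      intro i _
      have hsub : A2.filter (fun t => t / (L : ℤ) = i) ⊆ A := by
        refine (filter_subset _ _).trans ?_
        rw [hA2]; exact filter_subset _ _
      rw [← card_image_of_injOn (hinj.mono (by exact_mod_cast hsub))]
      apply exits (by omega) U hU L hL i
      intro k hk
      rw [mem_image] at hk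
      obtain ⟨t, ht, rfl⟩ := hk
      rw [mem_filter, hA2, mem_filter] at ht
      obtain ⟨⟨ht1, ht2⟩, ht3⟩ := ht
      rw [hκ t ht1]
      exact ⟨ht3, fun h => ht2 (by rw [h, ht3])⟩)
    refine h3.trans (Nat.mul_le_mul_left _ (card_le_card (image_subset_image ?_)))
    rw [hA2, hA]
    exact (filter_subset _ _).trans (filter_subset _ _)
  omega

end Pool.Agent.H56.MD
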