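import Mathlib

/-!
# The values of an integer polynomial among the sums of the elements of two sets

Let `U` be an integer polynomial of degree `d ≥ 2`, `P` and `Q` finite sets of integers such that the differences of the
different elements of `Q` have at most `E` divisors. At most `#P + #Q √(2 d E #P)` of the pairs `(p, q)` in `P × Q` are such
that `p + q` is a value of `U`. The bound does not depend on the coefficients of `U` and on the size of the elements of `P`.
-/

set_option autoImplicit false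

namespace Pool.Agent.H56.MD

open Finset Polynomial

/-- the difference polynomial with step `s` -/
lemma diff_poly_step {d : ℕ} (hd : 1 ≤ d) (U : ℤ[X]) (hU : U.natDegree = d) (s : ℤ) :
    (taylor s U - U).natDegree ≤ d - 1 ∧ (taylor s U - U).coeff (d - 1) = d * s * U.coeff d := by
  refine ⟨?_, ?_⟩
  · rw [natDegree_le_iff_coeff_eq_zero]
    intro n hn
    rw [coeff_sub, taylor_coeff]
    rcases Nat.lt_or_ge d n with h | h
    · rw [coeff_eq_zero_of_natDegree_lt (by omega : U.natDegree < n), hasseDeriv_eq_zero_of_lt_natDegree _ _ (by omega)]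
      simp
    · have hn' : n = d := by omega
      subst hn'
      have h1 : (hasseDeriv n U).natDegree ≤ 0 := by
        refine (natDegree_hasseDeriv_le _ _).trans ?_
        omega
      rw [eq_C_of_natDegree_le_zero h1, eval_C, hasseDeriv_coeff]
      simp
  · rw [coeff_sub, taylor_coeff]
    have h1 : (hasseDeriv (d - 1) U).natDegree < 2 := by
      refine lt_of_le_of_lt (natDegree_hasseDeriv_le _ _) ?_
      omega
    rw [eval_eq_sum_range' h1]
    simp only [sum_range_succ, sum_range_zero, hasseDeriv_coeff, pow_zero, pow_one, mul_one, zero_add]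
    have e1 : 1 + (d - 1) = d := by omega
    rw [e1, Nat.choose_self, Nat.cast_one, one_mul]
    have e2 : d.choose (d - 1) = d := by
      rw [Nat.choose_symm_of_eq_add (by omega : d = (d - 1) + 1)]
      simp
    rw [e2]
    ring

open Classical in
/-- at most `2 (d - 1) τ(a - b)` integers `p` are such that `p + a` and `p + b` are values of `U` -/
lemma few_p {d : ℕ} (hd : 2 ≤ d) (U : ℤ[X]) (hU : U.natDegree = d) (P : Finset ℤ) (a b : ℤ) (hab : a ≠ b) (E : ℕ)
    (hE : (a - b).natAbs.divisors.card ≤ E) :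
    (P.filter (fun p => (∃ k : ℤ, U.eval k = p + a) ∧ ∃ k : ℤ, U.eval k = p + b)).card ≤ 2 * (d - 1) * E := by
  classical
  have hU0 : U.coeff d ≠ 0 := by
    rw [← hU]
    intro h
    have : U = 0 := leadingCoeff_eq_zero.1 h
    rw [this, natDegree_zero] at hU
    omega
  obtain ⟨D, hD⟩ : ∃ D : Finset ℤ, D = (a - b).natAbs.divisors.image (fun n : ℕ => (n : ℤ)) ∪
    (a - b).natAbs.divisors.image (fun n : ℕ => -(n : ℤ)) := ⟨_, rfl⟩
  have hDc : D.card ≤ 2 * E := by
    rw [hD]
    refine (card_union_le _ _).trans ?_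
    have h1 := card_image_le (s := (a - b).natAbs.divisors) (f := fun n : ℕ => (n : ℤ))
    have h2 := card_image_le (s := (a - b).natAbs.divisors) (f := fun n : ℕ => -(n : ℤ))
    omega
  obtain ⟨R, hR⟩ : ∃ R : ℤ → Finset ℤ, R = fun s => (taylor s U - U - C (a - b)).roots.toFinset.image (fun k => U.eval k - b) :=
    ⟨_, rfl⟩
  have hRc : ∀ s : ℤ, (R s).card ≤ d - 1 := by
    intro s
    rw [hR]
    refine card_image_le.trans ((Multiset.toFinset_card_le _).trans ((card_roots' _).trans ?_))
    refine (natDegree_sub_le _ _).trans ?_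
    rw [natDegree_C]
    exact max_le (diff_poly_step (by omega) U hU s).1 (by omega)
  have hsub : P.filter (fun p => (∃ k : ℤ, U.eval k = p + a) ∧ ∃ k : ℤ, U.eval k = p + b) ⊆ D.biUnion R := by
    intro p hp
    rw [mem_filter] at hp
    obtain ⟨-, ⟨k₁, h1⟩, k₂, h2⟩ := hp
    have h3 : k₁ - k₂ ∣ a - b := by
      have := sub_dvd_eval_sub k₁ k₂ U
      rw [h1, h2] at this
      have e : p + a - (p + b) = a - b := by ring
      rwa [e] at this
    have hab' : a - b ≠ 0 := sub_ne_zero.2 hab
    rw [mem_biUnion]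
    refine ⟨k₁ - k₂, ?_, ?_⟩
    · have h4 : (k₁ - k₂).natAbs ∈ (a - b).natAbs.divisors := by
        rw [Nat.mem_divisors]
        exact ⟨Int.natAbs_dvd_natAbs.2 h3, by rwa [Ne, Int.natAbs_eq_zero]⟩
      rw [hD, mem_union, mem_image, mem_image]
      rcases Int.natAbs_eq (k₁ - k₂) with h5 | h5
      · left; exact ⟨_, h4, h5.symm⟩
      · right; exact ⟨_, h4, h5.symm⟩
    · rw [hR, mem_image]
      refine ⟨k₂, ?_, by rw [h2]; ring⟩
      rw [Multiset.mem_toFinset, mem_roots']
      constructor
      · intro h6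
        have h7 : (taylor (k₁ - k₂) U - U - C (a - b)).coeff (d - 1) = 0 := by rw [h6, coeff_zero]
        rw [coeff_sub, (diff_poly_step (by omega) U hU _).2, coeff_C, if_neg (by omega), sub_zero] at h7
        have h8 : k₁ - k₂ ≠ 0 := by
          intro h8
          rw [h8, zero_dvd_iff] at h3
          exact hab' h3
        have h9 : (d : ℤ) ≠ 0 := by exact_mod_cast (by omega : d ≠ 0)
        exact mul_ne_zero (mul_ne_zero h9 h8) hU0 h7
      · rw [IsRoot.def, eval_sub, eval_sub, taylor_eval, eval_C]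
        have e : k₂ + (k₁ - k₂) = k₁ := by ring
        rw [e, h1, h2]
        ring
  calc _ ≤ (D.biUnion R).card := card_le_card hsub
    _ ≤ ∑ s ∈ D, (R s).card := card_biUnion_le
    _ ≤ D.card * (d - 1) := by
        refine (sum_le_sum fun s _ => hRc s).trans ?_
        rw [sum_const, smul_eq_mul]
    _ ≤ (2 * E) * (d - 1) := Nat.mul_le_mul_right _ hDc
    _ = 2 * (d - 1) * E := by ring

/-- the pairs of elements of two sets whose sum has a property `V`, if few `p` are such that `p + a` and `p + b` have it -/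
lemma energy (V : ℤ → Prop) [DecidablePred V] (P Q : Finset ℤ) (K : ℕ)
    (h : ∀ a ∈ Q, ∀ b ∈ Q, a ≠ b → (P.filter (fun p => V (p + a) ∧ V (p + b))).card ≤ K) :
    (((P ×ˢ Q).filter (fun x => V (x.1 + x.2))).card : ℝ) ≤ P.card + Q.card * √(K * P.card) := by
  classical
  obtain ⟨r, hr⟩ : ∃ r : ℤ → ℕ, r = fun p => (Q.filter (fun q => V (p + q))).card := ⟨_, rfl⟩
  obtain ⟨B, hB⟩ : ∃ B : ℕ, B = ((P ×ˢ Q).filter (fun x => V (x.1 + x.2))).card := ⟨_, rfl⟩
  have h1 : B = ∑ p ∈ P, r p := by
    rw [hB, hr, card_filter, sum_product]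
    apply sum_congr rfl
    intro p _
    simp only [card_filter]
  have h2 : ∑ p ∈ P, r p ^ 2 ≤ B + Q.card ^ 2 * K := by
    have e1 : ∀ p ∈ P, r p ^ 2 = r p + ∑ x ∈ Q.offDiag, if V (p + x.1) ∧ V (p + x.2) then 1 else 0 := by
      intro p _
      have e2 : r p ^ 2 = ∑ x ∈ Q ×ˢ Q, if V (p + x.1) ∧ V (p + x.2) then 1 else 0 := by
        rw [hr]
        simp only
        rw [card_filter, sq, sum_mul_sum, sum_product]
        apply sum_congr rfl
        intro a _
        apply sum_congr rfl
        intro b _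
        by_cases ha : V (p + a) <;> by_cases hb : V (p + b) <;> simp [ha, hb]
      rw [e2, ← diag_union_offDiag Q, sum_union (disjoint_diag_offDiag Q)]
      congr 1
      rw [hr]
      simp only
      rw [card_filter, sum_diag]
      apply sum_congr rfl
      intro a _
      simp
    rw [sum_congr rfl e1, sum_add_distrib, ← h1, sum_comm]
    apply Nat.add_le_add_left
    have e3 : ∀ x ∈ Q.offDiag, (∑ p ∈ P, if V (p + x.1) ∧ V (p + x.2) then 1 else 0) ≤ K := by
      intro x hx
      rw [mem_offDiag] at hx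
      rw [← card_filter]
      exact h x.1 hx.1 x.2 hx.2.1 hx.2.2
    refine (sum_le_sum e3).trans ?_
    rw [sum_const, smul_eq_mul]
    apply Nat.mul_le_mul_right
    rw [offDiag_card, sq]
    omega
  have h3 : B ^ 2 ≤ P.card * (B + Q.card ^ 2 * K) := by
    have e4 : (∑ p ∈ P, r p) ^ 2 ≤ P.card * ∑ p ∈ P, r p ^ 2 := sq_sum_le_card_mul_sum_sq
    rw [← h1] at e4
    exact e4.trans (Nat.mul_le_mul_left _ h2)
  rw [← hB]
  have h4 : (B : ℝ) ^ 2 ≤ P.card * (B + Q.card ^ 2 * K) := by exact_mod_cast h3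
  obtain ⟨z, hz⟩ : ∃ z : ℝ, z = Q.card * √(K * P.card) := ⟨_, rfl⟩
  have hz0 : 0 ≤ z := by rw [hz]; positivity
  have hz2 : z ^ 2 = P.card * (Q.card ^ 2 * K) := by
    rw [hz, mul_pow, Real.sq_sqrt (by positivity)]
    ring
  rw [← hz]
  by_contra hcon
  push Not at hcon
  have hp0 : (0 : ℝ) ≤ P.card := Nat.cast_nonneg _
  nlinarith [mul_nonneg hp0 hz0]

/-- **The values of `U` among the sums.** -/
theorem values_sum {d : ℕ} (hd : 2 ≤ d) (U : ℤ[X]) (hU : U.natDegree = d ∨ U.natDegree = 0) (P Q : Finset ℤ) (E : ℕ)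
    (hE : ∀ a ∈ Q, ∀ b ∈ Q, a ≠ b → (a - b).natAbs.divisors.card ≤ E) (V : ℤ → Prop) [DecidablePred V]
    (hV : ∀ t, V t → ∃ k : ℤ, U.eval k = t) :
    (((P ×ˢ Q).filter (fun x => V (x.1 + x.2))).card : ℝ) ≤ P.card + Q.card * √(2 * d * E * P.card) := by
  classical
  have h1 := energy V P Q (2 * (d - 1) * E) (by
    intro a ha b hb hab
    rcases hU with hU | hU
    · refine le_trans (card_le_card ?_) (few_p hd U hU P a b hab E (hE a ha b hb hab))
      intro p hp
      rw [mem_filter] at hp ⊢
      exact ⟨hp.1, hV _ hp.2.1, hV _ hp.2.2⟩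
    · have : P.filter (fun p => V (p + a) ∧ V (p + b)) = ∅ := by
        rw [filter_eq_empty_iff]
        rintro p - ⟨h2, h3⟩
        obtain ⟨k, hk⟩ := hV _ h2
        obtain ⟨l, hl⟩ := hV _ h3
        rw [eq_C_of_natDegree_eq_zero hU, eval_C] at hk hl
        rw [hk] at hl
        exact hab (by linarith)
      rw [this, card_empty]
      exact Nat.zero_le _)
  refine h1.trans ?_
  have h2 : √(((2 * (d - 1) * E : ℕ) : ℝ) * P.card) ≤ √(2 * d * E * P.card) := by
    apply Real.sqrt_le_sqrt
    apply mul_le_mul_of_nonneg_right _ (Nat.cast_nonneg _)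
    have : 2 * (d - 1) * E ≤ 2 * d * E := Nat.mul_le_mul_right _ (by omega)
    exact_mod_cast this
  have h3 := mul_le_mul_of_nonneg_left h2 (Nat.cast_nonneg (α := ℝ) Q.card)
  linarith

end Pool.Agent.H56.MD
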